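import Pool.Agent.H3.OD.Targets
import Pool.Agent.H64.SC.Api

/-!
# Expansion of the elements of a valuation ring in powers of a uniformiser
-/

set_option autoImplicit false

namespace Pool.Agent.H14.OD

open SC Pool.Agent.H92.OD Pool.Agent.H3.OD
open Pool.Agent.H27.LV (ge)

section

variable {k F : Type} [Field k] [Field F] [Algebra k F] {v : DV k F}

theorem ge_add {t : ℤ} {x y : F} (hx : ge v t x) (hy : ge v t y) : ge v t (x + y) := by
  by_cases h : x + y = 0
  · exact Or.inl h
  right
  refine v.ord_add_ge (fun h0 => ?_) (fun h0 => ?_) h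
  · exact hx.resolve_left h0
  · exact hy.resolve_left h0

theorem ge_neg {t : ℤ} {x : F} (hx : ge v t x) : ge v t (-x) := by
  rcases hx with h | h
  · left; rw [h, neg_zero]
  · right; rw [v.ord_neg]; exact h

theorem ge_sub {t : ℤ} {x y : F} (hx : ge v t x) (hy : ge v t y) : ge v t (x - y) := by
  rw [sub_eq_add_neg]
  exact ge_add hx (ge_neg hy)

theorem ge_mul {s t : ℤ} {x y : F} (hx : ge v s x) (hy : ge v t y) : ge v (s + t) (x * y) := by
  rcases hx with h | h
  · left; rw [h, zero_mul]
  rcases hy with h' | h'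
  · left; rw [h', mul_zero]
  by_cases hx0 : x = 0
  · left; rw [hx0, zero_mul]
  by_cases hy0 : y = 0
  · left; rw [hy0, mul_zero]
  right
  rw [v.ord_mul' hx0 hy0]
  omega

theorem ge_mono {s t : ℤ} {x : F} (hx : ge v s x) (h : t ≤ s) : ge v t x :=
  hx.imp id fun h' => h.trans h'

theorem ge_const (c : k) : ge v 0 (algebraMap k F c) := Or.inr (by rw [v.ord_base])

theorem ge_sum {ι : Type*} (s : Finset ι) (f : ι → F) (t : ℤ) (h : ∀ i ∈ s, ge v t (f i)) :
    ge v t (∑ i ∈ s, f i) := by
  classical
  induction s using Finset.induction_on with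
  | empty => exact Or.inl rfl
  | insert a s ha ih =>
    rw [Finset.sum_insert ha]
    exact ge_add (h a (Finset.mem_insert_self _ _))
      (ih fun i hi => h i (Finset.mem_insert_of_mem hi))

theorem ge_pow {p : F} (hp : v.ord p = 1) (n : ℕ) : ge v n (p ^ n) :=
  Or.inr (by rw [v.ord_pow, hp, mul_one])

theorem ne_zero_of {p : F} (hp : v.ord p = 1) : p ≠ 0 := by
  rintro rfl
  rw [v.ord_zero] at hp
  exact absurd hp (by norm_num)

/-- a coefficient is determined -/
theorem const_zero {p : F} (hp : v.ord p = 1) {c : k} {n : ℕ}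
    (h : ge v ((n + 1 : ℕ) : ℤ) (algebraMap k F c * p ^ n)) : c = 0 := by
  by_contra hc
  have hc' : algebraMap k F c ≠ 0 := fun h0 => hc ((map_eq_zero _).1 h0)
  have hpn : p ^ n ≠ 0 := pow_ne_zero _ (ne_zero_of hp)
  rcases h with h | h
  · exact (mul_ne_zero hc' hpn) h
  · rw [v.ord_mul' hc' hpn, v.ord_base, v.ord_pow, hp] at h
    push_cast at h
    omega

/-- the value of the first terms -/
noncomputable def Sf (k : Type) {F : Type} [Field k] [Field F] [Algebra k F] (p : F) (N : ℕ)
    (f : PowerSeries k) : F :=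
  ∑ i ∈ Finset.range N, algebraMap k F (PowerSeries.coeff i f) * p ^ i

/-- `f` is the expansion of `z` in powers of `p` -/
def Ex (v : DV k F) (p z : F) (f : PowerSeries k) : Prop := ∀ N : ℕ, ge v N (z - Sf k p N f)

theorem Ex.unique {p z : F} (hp : v.ord p = 1) {f g : PowerSeries k} (hf : Ex v p z f)
    (hg : Ex v p z g) : f = g := by
  ext i
  induction i using Nat.strong_induction_on with
  | _ i ih =>
    have h1 := ge_sub (hg (i + 1)) (hf (i + 1))
    have h2 : z - Sf k p (i + 1) g - (z - Sf k p (i + 1) f) =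
        algebraMap k F (PowerSeries.coeff i f - PowerSeries.coeff i g) * p ^ i := by
      unfold Sf
      rw [Finset.sum_range_succ, Finset.sum_range_succ]
      have h3 : ∑ j ∈ Finset.range i, algebraMap k F (PowerSeries.coeff j f) * p ^ j =
          ∑ j ∈ Finset.range i, algebraMap k F (PowerSeries.coeff j g) * p ^ j :=
        Finset.sum_congr rfl fun j hj => by rw [ih j (Finset.mem_range.1 hj)]
      rw [h3, map_sub]
      ring
    rw [h2] at h1
    exact sub_eq_zero.1 (const_zero hp h1)

theorem Ex.add {p z w : F} {f g : PowerSeries k} (hf : Ex v p z f) (hg : Ex v p w g) :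
    Ex v p (z + w) (f + g) := by
  intro N
  have h : z + w - Sf k p N (f + g) = (z - Sf k p N f) + (w - Sf k p N g) := by
    have h1 : Sf k p N (f + g) = Sf k p N f + Sf k p N g := by
      unfold Sf
      rw [← Finset.sum_add_distrib]
      refine Finset.sum_congr rfl fun i _ => ?_
      rw [map_add, map_add, add_mul]
    rw [h1]
    ring
  rw [h]
  exact ge_add (hf N) (hg N)

/-- the polynomial of the first terms -/
noncomputable def Tf (N : ℕ) (f : PowerSeries k) : Polynomial k :=
  ∑ i ∈ Finset.range N, Polynomial.C (PowerSeries.coeff i f) * Polynomial.X ^ i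

theorem coeff_Tf (N : ℕ) (f : PowerSeries k) {i : ℕ} (hi : i < N) :
    (Tf N f).coeff i = PowerSeries.coeff i f := by
  unfold Tf
  rw [Polynomial.finsetSum_coeff, Finset.sum_eq_single i]
  · rw [Polynomial.coeff_C_mul, Polynomial.coeff_X_pow, if_pos rfl, mul_one]
  · intro j _ hj
    rw [Polynomial.coeff_C_mul, Polynomial.coeff_X_pow, if_neg (Ne.symm hj), mul_zero]
  · intro h
    exact absurd (Finset.mem_range.2 hi) h

theorem aeval_Tf (p : F) (N : ℕ) (f : PowerSeries k) :
    Polynomial.aeval p (Tf N f) = Sf k p N f := by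
  unfold Tf Sf
  rw [map_sum]
  refine Finset.sum_congr rfl fun i _ => ?_
  rw [map_mul, Polynomial.aeval_C, map_pow, Polynomial.aeval_X]

theorem ge_aeval {p : F} (hp : v.ord p = 1) (h : Polynomial k) :
    ge v 0 (Polynomial.aeval p h) := by
  rw [Polynomial.aeval_eq_sum_range]
  refine ge_sum _ _ _ fun i _ => ?_
  rw [Algebra.smul_def]
  have h1 := ge_mul (ge_const (v := v) (h.coeff i)) (ge_pow hp i)
  exact ge_mono h1 (by omega)

theorem Ex.mul {p z w : F} (hp : v.ord p = 1) {f g : PowerSeries k} (hf : Ex v p z f)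
    (hg : Ex v p w g) : Ex v p (z * w) (f * g) := by
  intro N
  have hw : ge v 0 w := by
    have := hg 0
    unfold Sf at this
    simpa using this
  have h0 : ge v 0 (Sf k p N f) := by
    rw [← aeval_Tf]
    exact ge_aeval hp _
  have h1 : ge v N (Sf k p N f * Sf k p N g - Sf k p N (f * g)) := by
    rw [← aeval_Tf, ← aeval_Tf, ← aeval_Tf, ← map_mul, ← map_sub]
    have h2 : Polynomial.X ^ N ∣ Tf N f * Tf N g - Tf N (f * g) := by
      rw [Polynomial.X_pow_dvd_iff]
      intro i hi
      rw [Polynomial.coeff_sub, coeff_Tf _ _ hi, Polynomial.coeff_mul, PowerSeries.coeff_mul,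
        sub_eq_zero]
      refine Finset.sum_congr rfl fun x hx => ?_
      have h3 := Finset.HasAntidiagonal.mem_antidiagonal.1 hx
      rw [coeff_Tf _ _ (by omega), coeff_Tf _ _ (by omega)]
    obtain ⟨h, hh⟩ := h2
    rw [hh, map_mul, map_pow, Polynomial.aeval_X]
    have h3 := ge_mul (ge_pow hp N) (ge_aeval hp h)
    rwa [add_zero] at h3
  have h2 : z * w - Sf k p N (f * g) = (z - Sf k p N f) * w + Sf k p N f * (w - Sf k p N g) +
      (Sf k p N f * Sf k p N g - Sf k p N (f * g)) := by ring
  rw [h2]
  refine ge_add (ge_add ?_ ?_) h1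
  · have := ge_mul (hf N) hw
    rwa [add_zero] at this
  · have := ge_mul h0 (hg N)
    rwa [zero_add] at this

theorem Ex.const (p : F) (c : k) : Ex v p (algebraMap k F c) (PowerSeries.C c) := by
  intro N
  rcases N with _ | N
  · unfold Sf
    simpa using ge_const (v := v) c
  · left
    unfold Sf
    rw [Finset.sum_range_succ', Finset.sum_eq_zero]
    · simp
    · intro i _
      rw [PowerSeries.coeff_C, if_neg (Nat.succ_ne_zero i), map_zero, zero_mul]

theorem Ex.unif {p : F} (hp : v.ord p = 1) : Ex v p p PowerSeries.X := by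
  intro N
  rcases N with _ | _ | N
  · unfold Sf
    have h := ge_mono (ge_pow hp 1) (show (0 : ℤ) ≤ ((1 : ℕ) : ℤ) by norm_num)
    simpa using h
  · unfold Sf
    have h := ge_pow hp 1
    simpa [PowerSeries.coeff_zero_X] using h
  · left
    unfold Sf
    rw [Finset.sum_range_succ', Finset.sum_range_succ', Finset.sum_eq_zero]
    · simp [PowerSeries.coeff_zero_X]
    · intro i _
      rw [PowerSeries.coeff_X, if_neg (by omega), map_zero, zero_mul]

theorem exists_Ex (hv : Rtl v) {p : F} (hp : v.ord p = 1) (z : v.vs) :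
    ∃ f : PowerSeries k, Ex v p (z : F) f := by
  have hp0 := ne_zero_of hp
  have h1 : ∀ z : v.vs, ∃ c : k, ge v 1 ((z : F) - algebraMap k F c) := fun z => hv z z.2
  choose dg hdg using h1
  have h2 : ∀ z : v.vs, ∃ z' : v.vs, (z : F) = algebraMap k F (dg z) + p * z' := by
    intro z
    have h3 : 0 ≤ v.ord (((z : F) - algebraMap k F (dg z)) / p) := by
      rcases hdg z with h | h
      · rw [h, zero_div, v.ord_zero]
      · by_cases h0 : (z : F) - algebraMap k F (dg z) = 0
        · rw [h0, zero_div, v.ord_zero]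
        · rw [v.ord_div h0 hp0, hp]
          omega
    refine ⟨⟨_, h3⟩, ?_⟩
    show (z : F) = algebraMap k F (dg z) + p * (((z : F) - algebraMap k F (dg z)) / p)
    field_simp
    ring
  choose nx hnx using h2
  refine ⟨PowerSeries.mk fun i => dg (nx^[i] z), fun N => ?_⟩
  have h3 : (z : F) = Sf k p N (PowerSeries.mk fun i => dg (nx^[i] z)) +
      p ^ N * ((nx^[N] z : v.vs) : F) := by
    induction N with
    | zero =>
      unfold Sf
      simp
    | succ N ih =>
      unfold Sf at ih ⊢
      rw [Finset.sum_range_succ, PowerSeries.coeff_mk, Function.iterate_succ_apply']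
      conv_lhs => rw [ih, hnx (nx^[N] z)]
      ring
  rw [sub_eq_of_eq_add' h3]
  have h4 : ge v 0 ((nx^[N] z : v.vs) : F) := Or.inr (nx^[N] z).2
  have h5 := ge_mul (ge_pow hp N) h4
  rwa [add_zero] at h5

end

theorem pf_DIG : T_DIG := by
  intro k F _ _ _ v p hv hp
  choose f hf using exists_Ex hv hp
  refine ⟨{ toFun := f, map_one' := ?_, map_mul' := ?_, map_zero' := ?_, map_add' := ?_ }, ?_, ?_⟩
  · refine (hf 1).unique hp ?_
    have h := Ex.const (v := v) p (1 : k)
    rw [map_one, map_one] at h
    exact h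
  · intro z w
    exact (hf (z * w)).unique hp ((hf z).mul hp (hf w))
  · refine (hf 0).unique hp ?_
    have h := Ex.const (v := v) p (0 : k)
    rw [map_zero, map_zero] at h
    exact h
  · intro z w
    exact (hf (z + w)).unique hp ((hf z).add (hf w))
  · intro c
    exact (hf (algebraMap k v.vs c)).unique hp (Ex.const p c)
  · intro z N
    exact hf z N

end Pool.Agent.H14.OD
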