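import Pool.Agent.H14.OD.DIG

/-!
# Embedding of a field with a discrete valuation with a given uniformiser
-/

set_option autoImplicit false

namespace Pool.Agent.H14.OD

open SC Pool.Agent.H92.OD Pool.Agent.H3.OD
open Pool.Agent.H27.LV (ge)

theorem sg_pow {R : Type} [CommRing R] (r : ℚ) (n : ℕ) :
    (sg r (1 : R)) ^ n = sg (n * r) 1 := by
  induction n with
  | zero => simp [sg_zero_one]
  | succ n ih =>
    rw [pow_succ, ih, sg_mul_sg, one_mul]
    congr 1
    push_cast
    ring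

theorem sg_zpow {k : Type} [Field k] (r : ℚ) (n : ℤ) :
    (sg r (1 : k)) ^ n = sg (n * r) 1 := by
  rcases n with n | n
  · rw [Int.ofNat_eq_natCast, zpow_natCast, sg_pow]
    push_cast
    rfl
  · rw [zpow_negSucc, sg_pow]
    refine inv_eq_of_mul_eq_one_left ?_
    rw [sg_mul_sg, one_mul, ← sg_zero_one]
    congr 1
    rw [Int.negSucc_eq]
    push_cast
    ring

section

variable {k F : Type} [Field k] [Field F] [Algebra k F] {v : DV k F}

/-- the order of the expansion -/
theorem Ex.order {p z : F} (hp : v.ord p = 1) {f : PowerSeries k} (hf : Ex v p z f) (hz : z ≠ 0)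
    {m : ℕ} (hm : v.ord z = m) :
    (∀ i < m, PowerSeries.coeff i f = 0) ∧ PowerSeries.coeff m f ≠ 0 := by
  have h1 : ∀ i < m, PowerSeries.coeff i f = 0 := by
    intro i
    induction i using Nat.strong_induction_on with
    | _ i ih =>
      intro him
      have h2 := hf (i + 1)
      unfold Sf at h2
      rw [Finset.sum_range_succ, Finset.sum_eq_zero fun j hj => by
        rw [ih j (Finset.mem_range.1 hj) ((Finset.mem_range.1 hj).trans him), map_zero, zero_mul],
        zero_add] at h2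
      have h3 : ge v ((i + 1 : ℕ) : ℤ) z := Or.inr (by rw [hm]; exact_mod_cast him)
      have h4 := ge_sub h3 h2
      rw [sub_sub_cancel] at h4
      exact const_zero hp h4
  refine ⟨h1, fun h0 => ?_⟩
  have h2 := hf (m + 1)
  unfold Sf at h2
  rw [Finset.sum_range_succ, h0, Finset.sum_eq_zero fun j hj => by
    rw [h1 j (Finset.mem_range.1 hj), map_zero, zero_mul], map_zero, zero_mul, add_zero,
    sub_zero] at h2
  rcases h2 with h2 | h2
  · exact hz h2
  · rw [hm] at h2
    push_cast at h2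
    omega

end

theorem pf_EXN (PSH : T_PSH) (DIG : T_DIG) : T_EXN := by
  intro k F _ _ _ _ v p n hv hp hn
  obtain ⟨e, he1, he2, he3, he4⟩ := PSH k n hn
  obtain ⟨ψ, hψ1, hψ2⟩ := DIG k F v p hv hp
  have hn0 : (n : ℚ) ≠ 0 := by exact_mod_cast hn.ne'
  have hp0 : p ≠ 0 := ne_zero_of hp
  have hEx : ∀ z : v.vs, Ex v p (z : F) (ψ z) := fun z N => hψ2 z N
  -- the order of the images of elements of the valuation ring
  have h1 : ∀ z : v.vs, z ≠ 0 → IsO (e (ψ z)) ((v.ord (z : F) : ℚ) / n) := by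
    intro z hz
    have hz0 : (z : F) ≠ 0 := fun h => hz (Subtype.ext h)
    obtain ⟨m, hm⟩ := Int.eq_ofNat_of_zero_le z.2
    obtain ⟨h2, h3⟩ := (hEx z).order hp hz0 hm
    rw [hm]
    push_cast
    refine ⟨?_, fun s hs => ?_⟩
    · rw [he3]
      exact h3
    · by_cases h4 : ∃ i : ℕ, s = (i : ℚ) / n
      · obtain ⟨i, rfl⟩ := h4
        rw [he3]
        refine h2 i ?_
        have h5 : (0 : ℚ) < n := by exact_mod_cast hn
        have h6 := (div_lt_div_iff_of_pos_right h5).1 hs
        exact_mod_cast h6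
      · push Not at h4
        exact he4 _ _ h4
  have hinj : Function.Injective (e.comp ψ) := by
    rw [injective_iff_map_eq_zero]
    intro z hz
    by_contra h0
    exact (h1 z h0).ne_zero hz
  obtain ⟨φ0, hφ0⟩ : ∃ φ0 : F →+* HS k, ∀ z : v.vs, φ0 (z : F) = e (ψ z) :=
    ⟨IsFractionRing.lift hinj, fun z => IsFractionRing.lift_algebraMap hinj z⟩
  have hφk : ∀ c : k, φ0 (algebraMap k F c) = algebraMap k (HS k) c := by
    intro c
    have h2 := hφ0 (algebraMap k v.vs c)
    rw [hψ1, he1] at h2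
    exact h2
  obtain ⟨φ, hφ⟩ : ∃ φ : F →ₐ[k] HS k, ∀ z, φ z = φ0 z :=
    ⟨{ φ0 with commutes' := hφk }, fun z => rfl⟩
  have hφp : φ p = sg (1 / (n : ℚ)) 1 := by
    have hpv : 0 ≤ v.ord p := by rw [hp]; norm_num
    have h2 : ψ ⟨p, hpv⟩ = PowerSeries.X := (hEx ⟨p, hpv⟩).unique hp (Ex.unif hp)
    have h3 := hφ0 ⟨p, hpv⟩
    rw [h2, he2] at h3
    rw [hφ]
    exact h3
  -- decomposition
  have key : ∀ z : F, z ≠ 0 → ∃ w : v.vs, w ≠ 0 ∧ v.ord (w : F) = 0 ∧
      φ z = sg ((v.ord z : ℚ) / n) 1 * e (ψ w) := by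
    intro z hz
    have hpj : p ^ (v.ord z) ≠ 0 := zpow_ne_zero _ hp0
    have h2 : v.ord (z / p ^ (v.ord z)) = 0 := by
      rw [v.ord_div hz hpj, v.ord_zpow, hp, mul_one, sub_self]
    refine ⟨⟨z / p ^ (v.ord z), h2.ge⟩, fun h => ?_, h2, ?_⟩
    · exact div_ne_zero hz hpj (congrArg Subtype.val h)
    · rw [← hφ0]
      show φ z = sg ((v.ord z : ℚ) / n) 1 * φ0 (z / p ^ (v.ord z))
      rw [← hφ]
      have h3 : z = p ^ (v.ord z) * (z / p ^ (v.ord z)) := by
        field_simp
      conv_lhs => rw [h3, map_mul, map_zpow₀, hφp, sg_zpow]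
      congr 2
      ring
  refine ⟨φ, hφp, ?_, ?_⟩
  · intro z hz
    obtain ⟨w, hw0, hw, hzw⟩ := key z hz
    have h2 := h1 w hw0
    rw [hw] at h2
    rw [hzw]
    refine ⟨?_, fun s hs => ?_⟩
    · rw [cf_sg_mul, one_mul, sub_self]
      have h3 := h2.1
      simpa using h3
    · rw [cf_sg_mul, one_mul]
      refine h2.2 _ ?_
      push_cast
      rw [zero_div]
      linarith
  · intro z r hr
    by_cases hz : z = 0
    · rw [hz, map_zero, cf_zero] at hr
      exact absurd rfl hr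
    obtain ⟨w, hw0, hw, hzw⟩ := key z hz
    rw [hzw, cf_sg_mul, one_mul] at hr
    have h3 : ∃ m : ℕ, r - (v.ord z : ℚ) / n = (m : ℚ) / n := by
      by_contra h
      push Not at h
      exact hr (he4 _ _ h)
    obtain ⟨m, hm⟩ := h3
    refine ⟨v.ord z + m, ?_⟩
    push_cast
    have h4 : r = ((v.ord z : ℚ) + m) / n := by
      rw [add_div, ← hm]
      ring
    rw [h4]
    field_simp

end Pool.Agent.H14.OD
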